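import Pool.Agent.J6H84.TS.Stm

/-!
# Project TS (helper84), module LAB (helper68): labels of the symbols
-/

set_option autoImplicit false

namespace Pool.Agent.J6H68.TS.Lab

open Finset Pool.Agent.H430R2.PermCubes Pool.Agent.J6H84.LM Pool.Agent.J6H84.TS

/-- each member of an array takes all values -/
lemma surj {m n k : ℕ} {C : Fin k → (Fin m → Fin n) → Fin n} (h1 : 1 ≤ m) (hmk : m ≤ k)
    (hC : IsArray m n k C) (i : Fin k) : Function.Surjective (C i) := by
  intro s
  obtain ⟨S, hiS, -, hS⟩ := Finset.exists_subsuperset_card_eq (s := {i}) (t := Finset.univ)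
    (n := m) (Finset.subset_univ _) (by simpa using h1) (by simpa using hmk)
  obtain ⟨x, hx⟩ := hC.exists_point S hS (fun _ => s)
  exact ⟨x, hx i (hiS (by simp))⟩

/-- **Module LAB.** -/
theorem main : S_Lab := by
  intro hRot p _ m k C h1 hmk hC P hP hA
  have key : ∀ i : Fin k, ∃ (u : Fin p ≃ ZMod p) (χ : P → ZMod p),
      ∀ (σ : P) x, u (C i (σ.1 x)) = u (C i x) + χ σ := by
    intro i
    have hs := surj h1 hmk hC i
    have hτ : ∀ σ : P, ∃ τ : Equiv.Perm (Fin p), ∀ x, C i (σ.1 x) = τ (C i x) := by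
      intro σ
      obtain ⟨τ, hτ⟩ := hA σ.1 σ.2 i
      exact ⟨τ, fun x => by simpa using hτ x⟩
    choose τ hτ using hτ
    have hmul : ∀ σ σ' : P, τ (σ * σ') = τ σ * τ σ' := by
      intro σ σ'
      refine Equiv.ext fun s => ?_
      obtain ⟨x, rfl⟩ := hs s
      rw [← hτ (σ * σ') x, Equiv.Perm.mul_apply, ← hτ σ' x, ← hτ σ]
      rfl
    obtain ⟨u, χ, h⟩ := hRot p P hP (MonoidHom.mk' τ hmul)
    exact ⟨u, χ, fun σ x => by rw [hτ σ x]; exact h σ (C i x)⟩
  choose u χ h using key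
  exact ⟨u, χ, h⟩

end Pool.Agent.J6H68.TS.Lab
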